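import Pool.Agent.Helper11_COV.Stmt

set_option autoImplicit false

/-! Squad COV: module BLS (helper47). -/

namespace Pool.Agent.COV.H47

open Finset Classical

theorem sq_eq {α : Type} (n : ℕ) (f : ℕ → α) : sq n f = f n := by
  cases n <;> rfl

theorem bls (hBLK : BlkStmt) (hBKI : BkiStmt) (hMLA : MlaStmt) : BlsStmt := by
  intro c C PR z lo hi L
  induction L with
  | nil =>
    intro n m M1 M2 T K _ _ _ _ _ _ hInv hK
    refine ⟨m, M1, M2, T, ?_, ?_⟩
    · have e : n + 6 * fuel [] = n := by simp [fuel]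
      rw [e]
      exact hInv
    · have e : n + 6 * fuel [] = n := by simp [fuel]
      rw [e]
      exact hK
  | cons b L ih =>
    intro n m M1 M2 T K hPR hlo hhi hmod h5 hq hInv hK
    have hfuel : fuel (b :: L) = b.1 + fuel L := by simp [fuel]
    rw [hfuel] at hhi
    rw [blocks] at hK
    simp only [sq_eq, Bool.and_eq_true, Nat.ble_eq] at hK
    obtain ⟨⟨ht1, ht2⟩, hK⟩ := hK
    obtain ⟨s0', s1', M1', M2', T', hB, hK'⟩ := hBLK c C PR z b.2 b.1 n lo hi m SC SC M1 M2 T
      (fun n s0 s1 M1 M2 T => frc (mrg 1000 (mulL C 1 s0 SC m)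
          (mrg 1000 (mulL C 2 (s1 - s0) SC m) (mulL C 4 (SC - s1) SC m)))
         fun m' => blocks C PR z L n m' M1 M2 T K) hPR hlo (by omega) hmod h5 hq ht1 ht2
      (hBKI.1 c C n m M1 M2 T hInv) hK
    rw [hMLA.2.2.2.1] at hK'
    have hI := hBKI.2.2.1 c C (n + 6 * b.1) m s0' s1' M1' M2' T' hB
    have h2 := ih (n + 6 * b.1) _ M1' M2' T' K hPR (by omega) (by omega) (by omega) (by omega)
      (fun q hqn hqp => hq q (by omega) hqp) hI hK'
    obtain ⟨m'', M1'', M2'', T'', h3, h4⟩ := h2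
    have e : n + 6 * fuel (b :: L) = n + 6 * b.1 + 6 * fuel L := by
      rw [hfuel]
      ring
    rw [e]
    exact ⟨m'', M1'', M2'', T'', h3, h4⟩

end Pool.Agent.COV.H47
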