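import Pool.Agent.Helper11_COV.Stmt

set_option autoImplicit false

/-! Squad COV: module CNT (helper47). -/

namespace Pool.Agent.COV.H47

open Finset Classical

theorem cnt : CntStmt := by
  intro S c v k hk hS
  set F : Finset ℕ := (LS S k).filter
    (fun d => ∀ p ∈ d.primeFactors, p < k → d.factorization p ≤ v p) with hF
  have hFm : ∀ d ∈ F, d ∈ S ∧ k ∈ d.primeFactors ∧ (∀ p ∈ d.primeFactors, p ≤ k) ∧
      ∀ p ∈ d.primeFactors, p < k → d.factorization p ≤ v p := by
    intro d hd
    rw [hF, Finset.mem_filter, LS, Finset.mem_filter] at hd
    exact ⟨hd.1.1, hd.1.2.1, hd.1.2.2, hd.2⟩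
  have hpos : ∀ d ∈ F, 1 ≤ d.factorization k := by
    intro d hd
    have h := (hFm d hd).2.1
    rw [← Nat.support_factorization, Finsupp.mem_support_iff] at h
    omega
  have hmaps : ∀ d ∈ F, d.factorization k - 1 ∈ range (c k) := by
    intro d hd
    have h1 := hpos d hd
    have h2 := hS d (hFm d hd).1 k
    rw [Finset.mem_range]
    omega
  rw [← Finset.sum_fiberwise_of_maps_to hmaps, wt, Finset.mul_sum]
  apply Finset.sum_le_sum
  intro j _
  have h1 : ∑ d ∈ F.filter (fun d => d.factorization k - 1 = j), 1 / (k : ℝ) ^ d.factorization k =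
      ∑ d ∈ F.filter (fun d => d.factorization k - 1 = j), 1 / (k : ℝ) ^ (j + 1) := by
    apply Finset.sum_congr rfl
    intro d hd
    rw [Finset.mem_filter] at hd
    have h2 := hpos d hd.1
    have h3 : d.factorization k = j + 1 := by omega
    rw [h3]
  rw [h1, Finset.sum_const, nsmul_eq_mul]
  have hcard : (F.filter (fun d => d.factorization k - 1 = j)).card ≤ tau k v := by
    rw [tau]
    have hc : ((((range k).filter Nat.Prime).pi (fun p => range (v p + 1))).card : ℕ) =
        ∏ p ∈ (range k).filter Nat.Prime, (v p + 1) := by
      rw [Finset.card_pi]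
      simp
    rw [← hc]
    apply Finset.card_le_card_of_injOn
      (fun d => (fun p (_ : p ∈ (range k).filter Nat.Prime) => d.factorization p))
    · intro d hd
      rw [Finset.mem_coe, Finset.mem_filter] at hd
      rw [Finset.mem_coe, Finset.mem_pi]
      intro p hp
      rw [Finset.mem_filter, Finset.mem_range] at hp
      rw [Finset.mem_range]
      show d.factorization p < v p + 1
      by_cases hpd : p ∈ d.primeFactors
      · have := (hFm d hd.1).2.2.2 p hpd hp.1
        omega
      · rw [← Nat.support_factorization, Finsupp.mem_support_iff, not_not] at hpd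
        omega
    · intro d hd d' hd' heq
      rw [Finset.mem_coe, Finset.mem_filter] at hd hd'
      have hd0 : d ≠ 0 := by
        rintro rfl
        have := (hFm 0 hd.1).2.1
        simp at this
      have hd0' : d' ≠ 0 := by
        rintro rfl
        have := (hFm 0 hd'.1).2.1
        simp at this
      apply Nat.eq_of_factorization_eq hd0 hd0'
      intro p
      rcases lt_trichotomy p k with h | h | h
      · by_cases hpp : p.Prime
        · exact congrFun (congrFun heq p) (Finset.mem_filter.2 ⟨Finset.mem_range.2 h, hpp⟩)
        · rw [Nat.factorization_eq_zero_of_not_prime _ hpp,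
            Nat.factorization_eq_zero_of_not_prime _ hpp]
      · rw [h]
        have h1 := hpos d hd.1
        have h2 := hpos d' hd'.1
        omega
      · have h1 : p ∉ d.primeFactors := fun hh => by
          have := (hFm d hd.1).2.2.1 p hh
          omega
        have h2 : p ∉ d'.primeFactors := fun hh => by
          have := (hFm d' hd'.1).2.2.1 p hh
          omega
        rw [← Nat.support_factorization, Finsupp.mem_support_iff, not_not] at h1 h2
        rw [h1, h2]
  have hcard' : ((F.filter (fun d => d.factorization k - 1 = j)).card : ℝ) ≤ (tau k v : ℝ) := by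
    exact_mod_cast hcard
  exact mul_le_mul_of_nonneg_right hcard' (by positivity)

end Pool.Agent.COV.H47
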