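import Pool.Agent.Helper11_COV.Stmt

set_option autoImplicit false

/-! Squad COV: module DDS (helper47). -/

namespace Pool.Agent.COV.H47

open Finset Classical

theorem DD_smul (hDDP : DdpStmt) (c : ℕ → ℕ) (ν : ℕ → ℝ) (n : ℕ) (u : ℝ) (f : ℕ → ℝ) :
    DD c ν n (fun x => u * f x) = u * DD c ν n f := by
  have h := hDDP.1 c ν n f f u 0
  have e : (fun x => u * f x + 0 * f x) = fun x => u * f x := by
    funext x
    ring
  rw [e] at h
  rw [h]
  ring

theorem pt_nonneg (s : ℝ) (x : ℕ) : 0 ≤ pt s x := le_max_left _ _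

theorem pt_anti (s : ℝ) (x y : ℕ) (h : x ≤ y) : pt s y ≤ pt s x := by
  unfold pt
  have : (x : ℝ) ≤ y := by exact_mod_cast h
  exact max_le_max le_rfl (by linarith)

theorem pt_mul (s : ℝ) (k x : ℕ) (hk : 0 < k) : pt s (k * x) = (k : ℝ) * pt (s / k) x := by
  unfold pt
  have hk' : (0 : ℝ) < k := by exact_mod_cast hk
  have e : s - ((k * x : ℕ) : ℝ) = (k : ℝ) * (s / k - x) := by
    push_cast
    field_simp
  rw [e]
  have h := mul_max_of_nonneg 0 (s / k - x) hk'.le
  rw [mul_zero] at h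
  exact h.symm

theorem dds (hDDP : DdpStmt) : DdsStmt := by
  intro c ν n hn hν
  refine ⟨?_, ?_, ?_, ?_⟩
  · have h1 : ∀ k : ℕ, DD c ν n (fun x => ((k * x : ℕ) : ℝ)) =
        (k : ℝ) * DD c ν n (fun x => (x : ℝ)) := by
      intro k
      rw [← DD_smul hDDP]
      congr 1
      funext x
      push_cast
      ring
    rw [DD, if_pos hn]
    have h2 : ∀ j ∈ range (c n), ν n / (n : ℝ) ^ (j + 1) *
        (DD c ν n (fun x => (((j + 2) * x : ℕ) : ℝ)) - DD c ν n (fun x => (((j + 1) * x : ℕ) : ℝ)))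
        = DD c ν n (fun x => (x : ℝ)) * (ν n * (1 / (n : ℝ) ^ (j + 1))) := by
      intro j _
      rw [h1 (j + 2), h1 (j + 1)]
      push_cast
      ring
    rw [Finset.sum_congr rfl h2, ← Finset.mul_sum, ← Finset.mul_sum, wt]
    ring
  · have h1 : ∀ k : ℕ, DD c ν n (fun x => ((k * x : ℕ) : ℝ) ^ 2) =
        (k : ℝ) ^ 2 * DD c ν n (fun x => (x : ℝ) ^ 2) := by
      intro k
      rw [← DD_smul hDDP]
      congr 1
      funext x
      push_cast
      ring
    rw [DD, if_pos hn]
    have h2 : ∀ j ∈ range (c n), ν n / (n : ℝ) ^ (j + 1) *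
        (DD c ν n (fun x => (((j + 2) * x : ℕ) : ℝ) ^ 2) -
          DD c ν n (fun x => (((j + 1) * x : ℕ) : ℝ) ^ 2))
        = DD c ν n (fun x => (x : ℝ) ^ 2) * (ν n * ((2 * (j : ℝ) + 3) / (n : ℝ) ^ (j + 1))) := by
      intro j _
      rw [h1 (j + 2), h1 (j + 1)]
      push_cast
      ring
    rw [Finset.sum_congr rfl h2, ← Finset.mul_sum, ← Finset.mul_sum, wt2]
    ring
  · intro s J hJ
    rw [DD, if_pos hn]
    have h0 : 0 ≤ ν n := (hν n (Nat.lt_succ_self n) hn).1
    have hsub : range J ⊆ range (c n) := Finset.range_subset_range.2 hJ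
    rw [← Finset.sum_sdiff hsub]
    have hneg : ∑ j ∈ range (c n) \ range J, ν n / (n : ℝ) ^ (j + 1) *
        (DD c ν n (fun x => pt s ((j + 2) * x)) - DD c ν n (fun x => pt s ((j + 1) * x))) ≤ 0 := by
      apply Finset.sum_nonpos
      intro j _
      apply mul_nonpos_of_nonneg_of_nonpos
      · positivity
      · rw [sub_nonpos]
        apply hDDP.2.1
        · intro p hp hpp
          exact hν p (by omega) hpp
        · intro x _
          exact pt_anti _ _ _ (Nat.mul_le_mul_right x (by omega))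
    linarith
  · intro s k hk
    rw [← DD_smul hDDP]
    congr 1
    funext x
    exact pt_mul s k x hk

end Pool.Agent.COV.H47
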