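import Pool.Agent.Helper11_COV.Stmt

set_option autoImplicit false

/-! Squad COV: module WTB (helper47). -/

namespace Pool.Agent.COV.H47

open Finset Classical

theorem wt_rem (m : ℕ) (p : ℝ) (hp : 2 ≤ p) :
    ∑ j ∈ range m, 1 / p ^ (j + 1) + 1 / p ^ m / (p - 1) = 1 / (p - 1) := by
  have h0 : p ≠ 0 := by linarith
  have h1 : p - 1 ≠ 0 := by linarith
  induction m with
  | zero => simp
  | succ m ih =>
    rw [Finset.sum_range_succ, ← ih, add_assoc]
    congr 1
    rw [pow_succ]
    field_simp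
    ring

theorem wt2_rem (m : ℕ) (p : ℝ) (hp : 2 ≤ p) :
    ∑ j ∈ range m, (2 * (j : ℝ) + 3) / p ^ (j + 1) +
      1 / p ^ m * ((3 * p - 1) / (p - 1) ^ 2 + 2 * m / (p - 1)) = (3 * p - 1) / (p - 1) ^ 2 := by
  have h0 : p ≠ 0 := by linarith
  have h1 : p - 1 ≠ 0 := by linarith
  induction m with
  | zero => simp
  | succ m ih =>
    have key : (2 * (m : ℝ) + 3) / p ^ (m + 1) + 1 / p ^ (m + 1) * ((3 * p - 1) / (p - 1) ^ 2 +
        2 * ((m + 1 : ℕ) : ℝ) / (p - 1)) =
        1 / p ^ m * ((3 * p - 1) / (p - 1) ^ 2 + 2 * m / (p - 1)) := by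
      rw [pow_succ]
      push_cast
      field_simp
      ring
    rw [Finset.sum_range_succ, add_assoc, key]
    exact ih

theorem wtb : WtbStmt := by
  refine ⟨?_, ?_, ?_, ?_⟩
  · intro c p hp
    have hp' : (2 : ℝ) ≤ p := by exact_mod_cast hp
    have h1 : (0 : ℝ) < (p : ℝ) - 1 := by linarith
    constructor
    · have h := wt_rem (c p) p hp'
      have h2 : 0 ≤ 1 / (p : ℝ) ^ (c p) / ((p : ℝ) - 1) := by positivity
      rw [wt]
      linarith
    · have h := wt2_rem (c p) p hp'
      have h3 : 0 ≤ (3 * (p : ℝ) - 1) / ((p : ℝ) - 1) ^ 2 := by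
        apply div_nonneg
        · linarith
        · positivity
      have h2 : 0 ≤ 1 / (p : ℝ) ^ (c p) * ((3 * (p : ℝ) - 1) / ((p : ℝ) - 1) ^ 2 +
          2 * (c p : ℝ) / ((p : ℝ) - 1)) := by
        apply mul_nonneg (by positivity)
        apply add_nonneg h3
        positivity
      rw [wt2]
      linarith
  · intro c p h
    rw [wt, wt2, h]
    simp
  · intro c p h
    rw [wt, wt2, h]
    simp
  · intro c p h
    rw [wt, wt2, h]
    simp only [Finset.sum_range_succ, Finset.sum_range_zero]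
    constructor
    · norm_num
    · norm_num

end Pool.Agent.COV.H47
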