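import Pool.Agent.COV.StmtsB

/-! Row DER of table covm (squad COV, MP_160b6c_nt), by helper47: a derivation of `U` over `k` with
kernel `k` (existence by the method of `Pool/Agent/Helper46_COV/GDR.lean`). -/

set_option autoImplicit false

namespace Pool.Agent.COV.H47

open Polynomial Pool.Agent.KDT.Z
open KaehlerDifferential TensorProduct

open scoped IntermediateField.algebraAdjoinAdjoin in
/-- A derivation with prescribed values on a transcendence basis. -/
lemma exDer {k L : Type} [Field k] [CharZero k] [Field L] [Algebra k L] {ι : Type} {x : ι → L}
    (hx : IsTranscendenceBasis k x) (f : ι → L) :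
    ∃ δ : Derivation k L L, ∀ i, δ (x i) = f i := by
  classical
  have : Algebra.FormallyEtale (Algebra.adjoin k (Set.range x))
      (IntermediateField.adjoin k (Set.range x)) :=
    .of_isLocalization (nonZeroDivisors _)
  have : Algebra.IsAlgebraic (IntermediateField.adjoin k (Set.range x)) L :=
    hx.isAlgebraic_field
  have : CharZero (IntermediateField.adjoin k (Set.range x)) :=
    charZero_of_injective_algebraMap (algebraMap k _).injective
  have : Algebra.FormallyEtale (IntermediateField.adjoin k (Set.range x)) L :=
    Algebra.FormallyEtale.of_isSeparable _ L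
  have : Algebra.FormallyEtale (Algebra.adjoin k (Set.range x)) L :=
    .comp _ (IntermediateField.adjoin k (Set.range x)) _
  -- the derivation on the polynomial ring
  let _ : Module (MvPolynomial ι k) L := Module.compHom L (MvPolynomial.aeval x).toRingHom
  have hsm : ∀ (p : MvPolynomial ι k) (y : L), p • y = (MvPolynomial.aeval x p) * y :=
    fun p y => rfl
  have : IsScalarTower k (MvPolynomial ι k) L := by
    refine ⟨fun q p y => ?_⟩
    rw [hsm, hsm, map_smul, smul_mul_assoc]
  let d0 : Derivation k (MvPolynomial ι k) L := MvPolynomial.mkDerivation k f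
  let e := hx.1.aevalEquiv
  have he : ∀ a : Algebra.adjoin k (Set.range x), MvPolynomial.aeval x (e.symm a) = (a : L) := by
    intro a
    have h1 := hx.1.algebraMap_aevalEquiv (e.symm a)
    have h2 : hx.1.aevalEquiv (e.symm a) = a := e.apply_symm_apply a
    rw [h2] at h1
    exact h1.symm
  let d : Derivation k (Algebra.adjoin k (Set.range x)) L :=
    Derivation.mk' ((d0 : MvPolynomial ι k →ₗ[k] L) ∘ₗ e.symm.toLinearMap) (by
      intro a b
      show d0 (e.symm (a * b)) = a • d0 (e.symm b) + b • d0 (e.symm a)
      rw [map_mul, Derivation.leibniz, hsm, hsm, he, he]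
      rfl)
  let φ : Ω[Algebra.adjoin k (Set.range x)⁄k] →ₗ[Algebra.adjoin k (Set.range x)] L :=
    d.liftKaehlerDifferential
  let Φ : Ω[L⁄k] →ₗ[L] L := (LinearMap.liftBaseChange L φ) ∘ₗ
    (tensorKaehlerEquivOfFormallyEtale k (Algebra.adjoin k (Set.range x)) L).symm.toLinearMap
  refine ⟨Φ.compDer (KaehlerDifferential.D k L), fun i => ?_⟩
  have h3 : x i = algebraMap (Algebra.adjoin k (Set.range x)) L
      ⟨x i, Algebra.subset_adjoin ⟨i, rfl⟩⟩ := rfl
  have h4 : Φ (KaehlerDifferential.D k L (x i)) = f i := by
    rw [h3]
    show (LinearMap.liftBaseChange L φ) ((tensorKaehlerEquivOfFormallyEtale k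
      (Algebra.adjoin k (Set.range x)) L).symm (KaehlerDifferential.D k L _)) = f i
    rw [tensorKaehlerEquivOfFormallyEtale_symm_D_algebraMap]
    rw [LinearMap.liftBaseChange_tmul, one_smul]
    show d.liftKaehlerDifferential _ = f i
    rw [Derivation.liftKaehlerDifferential_comp_D]
    show d0 (e.symm ⟨x i, _⟩) = f i
    have h5 : e.symm ⟨x i, Algebra.subset_adjoin ⟨i, rfl⟩⟩ = MvPolynomial.X i := by
      rw [AlgEquiv.symm_apply_eq]
      apply Subtype.ext
      have h6 := hx.1.algebraMap_aevalEquiv (MvPolynomial.X i)
      rw [MvPolynomial.aeval_X] at h6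
      exact h6.symm
    rw [h5]
    exact MvPolynomial.mkDerivation_X k f i
  exact h4

/-- an element outside the algebraically closed field `k` is transcendental -/
lemma trans_of {k U : Type} [Field k] [Field U] [Algebra k U] [IsAlgClosed k] {t : U}
    (ht : t ∉ (algebraMap k U).range) : Transcendental k t := by
  intro h
  apply ht
  have hi : IsIntegral k t := isAlgebraic_iff_isIntegral.1 h
  exact minpoly.mem_range_of_degree_eq_one k t
    (IsAlgClosed.degree_eq_one_of_irreducible k (minpoly.irreducible hi))

/-- a derivation which kills `t`, where `U` is algebraic over `k(t)`, is zero -/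
lemma der_zero {k U : Type} [Field k] [CharZero k] [Field U] [Algebra k U] {t : U}
    (hal : Algebra.IsAlgebraic (IntermediateField.adjoin k {t}) U) (e : Derivation k U U)
    (he : e t = 0) (a : U) : e a = 0 := by
  -- the field of constants
  let F : IntermediateField k U :=
    { carrier := {a | e a = 0}
      mul_mem' := by
        intro a b ha hb
        show e (a * b) = 0
        rw [Derivation.leibniz, show e a = 0 from ha, show e b = 0 from hb, smul_zero, smul_zero,
          add_zero]
      add_mem' := by
        intro a b ha hb
        show e (a + b) = 0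
        rw [map_add, show e a = 0 from ha, show e b = 0 from hb, add_zero]
      algebraMap_mem' := by
        intro r
        exact Derivation.map_algebraMap e r
      inv_mem' := by
        intro a ha
        show e a⁻¹ = 0
        rw [Derivation.leibniz_inv, show e a = 0 from ha, smul_zero] }
  have hle : IntermediateField.adjoin k {t} ≤ F := by
    rw [IntermediateField.adjoin_le_iff]
    intro y hy
    rw [Set.mem_singleton_iff] at hy
    rw [hy]
    exact he
  have hc : ∀ c : IntermediateField.adjoin k {t}, e (c : U) = 0 := fun c => hle c.2
  have : CharZero (IntermediateField.adjoin k {t}) :=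
    charZero_of_injective_algebraMap (algebraMap k _).injective
  let e' : Derivation (IntermediateField.adjoin k {t}) U U :=
    Derivation.mk' (R := IntermediateField.adjoin k {t})
      { toFun := e
        map_add' := fun x y => map_add e x y
        map_smul' := by
          intro c x
          show e (c • x) = c • e x
          rw [IntermediateField.smul_def, smul_eq_mul, Derivation.leibniz, hc c, smul_zero,
            add_zero]
          rfl } (by
      intro x y
      exact Derivation.leibniz e x y)
  have hs : IsSeparable (IntermediateField.adjoin k {t}) a :=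
    Algebra.IsSeparable.isSeparable _ a
  have h1 := e'.map_aeval (minpoly (IntermediateField.adjoin k {t}) a) a
  rw [minpoly.aeval, map_zero] at h1
  have h2 : aeval a (derivative (minpoly (IntermediateField.adjoin k {t}) a)) ≠ 0 :=
    Polynomial.Separable.aeval_derivative_ne_zero hs (minpoly.aeval _ a)
  rw [smul_eq_mul] at h1
  rcases mul_eq_zero.1 h1.symm with h | h
  · exact absurd h h2
  · exact h

/-- **Row DER.** -/
theorem der : DerStmt := by
  classical
  intro k U _ _ _ f g henv
  have := henv.kc
  have := henv.ch
  obtain ⟨x, hx⟩ := henv.ne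
  have htr := trans_of hx
  have hai : AlgebraicIndepOn k id ({x} : Set U) := by
    have h : AlgebraicIndependent k (fun _ : Unit => x) := by
      rw [algebraicIndependent_unique_type_iff]
      exact htr
    have h' := h.coe_range
    have hr : Set.range (fun _ : Unit => x) = {x} := Set.range_const
    rw [hr] at h'
    exact h'
  obtain ⟨b, hb, hbt⟩ := exists_isTranscendenceBasis_superset hai
  obtain ⟨d, hd⟩ := exDer hbt (fun y => if (y : U) = x then 1 else 0)
  have hdx : d x = 1 := by
    have h := hd ⟨x, hb rfl⟩
    simpa using h
  have key : ∀ t : U, t ∉ (algebraMap k U).range → d t ≠ 0 := by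
    intro t ht h0
    have h := der_zero (henv.td t ht) d h0 x
    rw [hdx] at h
    exact one_ne_zero h
  refine ⟨d, ?_, ?_⟩
  · intro u
    constructor
    · intro h
      by_contra hu
      exact key u hu h
    · rintro ⟨c, rfl⟩
      exact Derivation.map_algebraMap d c
  · intro σ
    -- the conjugate derivation
    let d' : Derivation k U U :=
      Derivation.mk' (R := k)
        { toFun := fun a => σ.symm (d (σ a))
          map_add' := fun a b => by
            show σ.symm (d (σ (a + b))) = σ.symm (d (σ a)) + σ.symm (d (σ b))
            rw [map_add, map_add, map_add]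
          map_smul' := fun c a => by
            show σ.symm (d (σ (c • a))) = c • σ.symm (d (σ a))
            rw [map_smul, Derivation.map_smul, map_smul] } (by
        intro a b
        show σ.symm (d (σ (a * b))) = a • σ.symm (d (σ b)) + b • σ.symm (d (σ a))
        rw [map_mul, Derivation.leibniz, map_add, smul_eq_mul, smul_eq_mul, map_mul, map_mul,
          AlgEquiv.symm_apply_apply, AlgEquiv.symm_apply_apply]
        rfl)
    have hd' : ∀ a, d' a = σ.symm (d (σ a)) := fun a => rfl
    have h0 : ∀ a, (d' - (d' x) • d) a = 0 := by
      refine der_zero (henv.td x hx) (d' - (d' x) • d) ?_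
      rw [Derivation.sub_apply, Derivation.smul_apply, hdx, smul_eq_mul, mul_one, sub_self]
    refine ⟨d (σ x), ?_, ?_⟩
    · refine key _ ?_
      rintro ⟨c, hc⟩
      apply hx
      refine ⟨c, ?_⟩
      have h := congrArg σ.symm hc
      rw [AlgEquiv.commutes, AlgEquiv.symm_apply_apply] at h
      exact h
    · intro a
      have h := h0 a
      rw [Derivation.sub_apply, Derivation.smul_apply, smul_eq_mul, sub_eq_zero, hd', hd'] at h
      have h' := congrArg σ h
      rw [map_mul, AlgEquiv.apply_symm_apply, AlgEquiv.apply_symm_apply] at h'
      exact h'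

end Pool.Agent.COV.H47
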